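import Pool.Agent.Run7.h946.GL.Asym

/-!
# MP_557161_ag: the asymptotic form of the conjecture on the orders of the poles of zeta functions

Let `X` be a smooth projective variety over an algebraic closure of a finite field, `d` its dimension and
`α_1, …, α_b` all the eigenvalues of the Frobenius endomorphism on the cohomology `H^*(X)` (with
multiplicities, of all weights). Let `z n` be the order of the pole at the central point `(n + 1) d` of the
zeta function of `X ^ (2 n + 2)` over all sufficiently large finite fields, and let `r n` be the rank of the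
group of the cycles of codimension `(n + 1) d` on `X ^ (2 n + 2)` modulo numerical equivalence. The
conjecture of Tate says that `r n = z n`, and a similar formula for all powers of `X` at all integers.

Choose vectors `v_1, …, v_b` in `ℤ ^ κ` whose differences generate `ℤ ^ κ` and such that a product of powers
of the `α_l` with sum of exponents zero is a root of unity if and only if the same linear combination of the
`v_l` is zero. Such vectors exist: `ℤ ^ κ` is the group generated by the quotients of the eigenvalues, modulo
torsion. Let `Σ` be the covariance matrix of the vectors.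

Theorem. (1) The number `z n` is the number of the pairs of words of length `n + 1` in the letters `v_l` with
equal sums, `det Σ` is positive, and

  `z n ~ b ^ (2 n + 2) / (√(det Σ) (4 π (n + 1)) ^ (κ / 2))`.

(2) The ranks `r n`, divided by the same function, converge to a number `L`, which is zero or `1 / δ` with a
natural number `δ`. In the second case `z n ≤ δ r n` for all `n`.

(3) (The asymptotic form of the conjecture.) `L = 1` if and only if the formula of Tate holds for all powers
of `X` at all integers. It is sufficient that `r n` is at least `c` times the function in (1) for infinitely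
many `n` and one constant `c > 1 / 2`.

So the formula of Tate for all powers of `X` at all integers is a statement on the size of the groups of
cycles of one codimension on the even powers, up to an error of `49` percent, and the size is given by an
elementary function, which depends only on the rank and the covariance of the relations between the
eigenvalues. If the formula fails for one power of `X` then it fails by about one half of the order of the
pole, or more, for all large even powers.

Idea of the proof. The generalised Tate classes on `X ^ (2 n + 2)` have a basis of monomials in generalised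
eigenvectors of the Frobenius endomorphism on `H^*(X)`. By Poincaré duality (a nonvanishing term of the
determinant of the matrix of the intersection form is a permutation of the eigenvectors) and the Riemann
hypothesis the monomials correspond to the pairs of words with equal sums. Their number is the integral of
`|P| ^ (2 n + 2)` over the torus, `P` the sum of the characters `v_l`; the method of Laplace and a Gaussian
integral give (1). The second part follows from the index law of the starting library.
-/

set_option autoImplicit false

open CategoryTheory AlgebraicGeometry Filter Topology Module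

universe u v

namespace Pool.Agent.Results.MP_557161_ag.AsymptoticFormula

open Pool.Agent.H914 Pool.Agent.W534 VarClass Obj WeilCohomology Pool.Agent.Y163
  Pool.Agent.Run7.h946.GL

variable {k : Type u} [Field k] {𝒱 : VarClass k} {ops : CycleOps 𝒱}

/-- The numbers `α l` are the eigenvalues of the Frobenius endomorphism of `X` on the cohomology, with
multiplicities. -/
def AreEigenvalues {W : WeilCohomology.{u, v} ops} {p : ℕ} (Φ : FrobSystem W p) (X : 𝒱.Obj)
    {ι : Type} [Fintype ι] (α : ι → W.K) : Prop :=
  LinearMap.charpoly (W.map (W534.iter (Φ.Fr X) 1)).toLinearMap =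
    ∏ l, (Polynomial.X - Polynomial.C (α l))

/-- The rank of the group of the cycles of codimension `(n + 1) dim X` on `X ^ (2 n + 2)` modulo
numerical equivalence. -/
noncomputable def midRank (ops : CycleOps 𝒱) (X : 𝒱.Obj) (n : ℕ) : ℕ :=
  numRank ops (sq X n) ((n + 1) * X.dim)

/-- The formula for the orders of the poles of the zeta functions of all powers of `X` at all integers. -/
def FormulaAllPowers {W : WeilCohomology.{u, v} ops} {p : ℕ} (Φ : FrobSystem W p) (σ : W.K →+* ℂ)
    (X : 𝒱.Obj) : Prop :=
  ∀ n j, j ≤ (pw X n).dim → PoleFormula Φ σ (pw X n) j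

/-- The orders `z n` of the poles of the zeta functions of the `X ^ (2 n + 2)` at `(n + 1) dim X`. -/
structure PoleLaw {W : WeilCohomology.{u, v} ops} {p : ℕ} (Φ : FrobSystem W p) (σ : W.K →+* ℂ)
    (X : 𝒱.Obj) {ι : Type} [Fintype ι] {κ : ℕ} (v : ι → Fin κ → ℤ) (z : ℕ → ℕ) : Prop where
  pole : ∀ n, PoleOrderIs Φ σ (sq X n) ((n + 1) * X.dim) (z n)
  words : ∀ n, z n = pairs v (n + 1)
  lim : Tendsto (fun n => (z n : ℝ) * gauss v n) atTop (𝓝 1)

/-- The normalised ranks `midRank ops X n * gauss v n` converge to `L`, which is zero or the inverse of a
natural number, and they decide the formula for all powers. -/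
structure RankLaw {W : WeilCohomology.{u, v} ops} {p : ℕ} (Φ : FrobSystem W p) (σ : W.K →+* ℂ)
    (X : 𝒱.Obj) {ι : Type} [Fintype ι] {κ : ℕ} (v : ι → Fin κ → ℤ) (z : ℕ → ℕ) (L : ℝ) :
    Prop where
  lim : Tendsto (fun n => (midRank ops X n : ℝ) * gauss v n) atTop (𝓝 L)
  values : L = 0 ∨ ∃ δ : ℕ, 0 < δ ∧ L = 1 / δ ∧ ∀ n, z n ≤ δ * midRank ops X n
  iff_formula : L = 1 ↔ FormulaAllPowers Φ σ X
  half : ∀ c : ℝ, 1 / 2 < c → (∃ᶠ n in atTop, c ≤ (midRank ops X n : ℝ) * gauss v n) →
    FormulaAllPowers Φ σ X

/-- **The asymptotic form of the conjecture on the orders of the poles.** -/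
theorem result (W : WeilCohomology.{u, v} ops) [IsAlgClosed W.K] (σ : W.K →+* ℂ) (p : ℕ)
    (hp : p.Prime) (Φ : FrobSystem W p) (hRH : ∀ Z : 𝒱.Obj, RiemannHyp Φ σ Z) (X : 𝒱.Obj)
    (D : X.Cycles) (hD : X.IsCyc 1 D) (hbig : Big ops X D) {ι : Type} [Fintype ι] (α : ι → W.K)
    (hα : AreEigenvalues Φ X α) :
    (∃ (κ : ℕ) (v : ι → Fin κ → ℤ), Steps α v) ∧
    ∀ (κ : ℕ) (v : ι → Fin κ → ℤ), Steps α v → 0 < (cov v).det ∧
      ∃ (z : ℕ → ℕ) (L : ℝ), PoleLaw Φ σ X v z ∧ RankLaw Φ σ X v z L := by
  have : Fact p.Prime := ⟨hp⟩
  obtain ⟨-, h1, h2⟩ := asymptotic (W := W) (Φ := Φ) hRH hD hbig α hα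
  refine ⟨h1, fun κ v hv => ?_⟩
  obtain ⟨h3, z, L, h4, h5, h6, h7, h8, h9⟩ := h2 κ v hv
  refine ⟨h3, z, L, ⟨h4, h5, h6⟩, ⟨h7, h8, h9, fun c hc hfr => h9.1 ?_⟩⟩
  have hcL : c ≤ L := by
    by_contra hlt
    push Not at hlt
    have h10 : ∀ᶠ n in atTop, (midRank ops X n : ℝ) * gauss v n < c :=
      h7.eventually (gt_mem_nhds hlt)
    exact hfr (h10.mono fun n hn => not_le.2 hn)
  rcases h8 with h8 | ⟨δ, hδ, h8, -⟩
  · rw [h8] at hcL
    linarith
  · have h10 : (1 : ℝ) / 2 < 1 / δ := by rw [← h8]; linarith
    have hδ' : (0 : ℝ) < δ := by exact_mod_cast hδ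
    rw [div_lt_div_iff₀ (by norm_num) hδ'] at h10
    have h11 : (δ : ℝ) < 2 := by linarith
    have h12 : δ < 2 := by exact_mod_cast h11
    obtain rfl : δ = 1 := by omega
    rw [h8]; norm_num

end Pool.Agent.Results.MP_557161_ag.AsymptoticFormula
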