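import Pool.Agent.Run7.h946.GL.Growth

/-!
# MP_557161_ag: the growth of the groups of cycles on powers decides the standard conjecture `D` and
the semisimplicity of Frobenius

Let `X` be a smooth projective variety over an algebraic closure of a finite field, `d` its dimension
and `α_1, …, α_b` all the eigenvalues of the Frobenius endomorphism on the cohomology `H^*(X)` (with
multiplicities, of all weights). Let `r n` be the rank of the group of the cycles of codimension
`(n + 1) d` on `X ^ (2 n + 2)` modulo numerical equivalence and let `κ` be the rank of the
multiplicative group generated by the quotients `α_l / α_m`.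

Theorem. (1) The quotients `r n * (n + 1) ^ (κ / 2) / b ^ (2 n + 2)` converge to a real number `L`.

(2) If `L` is not zero then on every power of `X` homological and numerical equivalence coincide, in
all codimensions, the Frobenius endomorphism is semisimple on the whole cohomology of every power of
`X`, and the order of the pole of the zeta function of `X ^ (2 n + 2)` at `(n + 1) d`, over all large
finite fields, is at most `δ * r n` for all `n`, with one natural number `δ`.

(3) It is sufficient that `r n` is at least `c * b ^ (2 n + 2) / (n + 1) ^ (κ / 2)` for infinitely many
`n` and one positive number `c`.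

So the two parts of the conjecture on the poles which are not the existence of algebraic cycles
(the coincidence of the two equivalences and the semisimplicity), for all powers of `X` in all
codimensions, follow from the order of growth of the ranks in one codimension along a sequence of
powers. The assumption does not mention the cohomology or the classes of the cycles: only the numbers
of numerically independent cycles, the dimension `b` and the rank `κ` of the group of the quotients of
the eigenvalues occur in it.

Idea of the proof. Let `T` be the space of generalised Tate classes of middle degree on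
`X ^ (2 n + 2)`; its dimension `z n` is asymptotic to a constant times the function in (1), by the
count of the monomials of eigenvectors and the local limit theorem, so the assumption bounds
`z n / r n` for infinitely many `n`, and by the index law of the starting library for all `n`. Hence
the dimension of the space of cycle classes is bounded by `δ * r n`. If a nonzero combination `y` of
cycle classes on `X ^ (2 m + 2)` were numerically trivial then the monomials with at most one factor in
the radical and the other factors from a complement would make the quotient of the dimension and the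
rank on the powers of `X ^ (2 m + 2)` unbounded: the algebra of correspondences modulo its radical
has a strictly smaller index. So the intersection form is nondegenerate on the cycle classes of all
powers; the algebra of the correspondences on a power is semisimple. The
Frobenius endomorphism is a central element of the algebra of algebraic correspondences, modulo
homological equivalence; this algebra has no radical, so the nilpotent part of the Frobenius
endomorphism is zero.
-/

set_option autoImplicit false

open CategoryTheory AlgebraicGeometry Filter Topology Module

universe u v

namespace Pool.Agent.Results.MP_557161_ag.GrowthOfCycles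

open Pool.Agent.H914 Pool.Agent.H447 Pool.Agent.W534 VarClass Obj WeilCohomology Pool.Agent.Y163
  Pool.Agent.Run7.h946.GL

variable {k : Type u} [Field k] {𝒱 : VarClass k} {ops : CycleOps 𝒱}

/-- The numbers `α l` are the eigenvalues of the Frobenius endomorphism of `X` on the cohomology, with
multiplicities. -/
def AreEigenvalues {W : WeilCohomology.{u, v} ops} {p : ℕ} (Φ : FrobSystem W p) (X : 𝒱.Obj)
    {ι : Type} [Fintype ι] (α : ι → W.K) : Prop :=
  LinearMap.charpoly (W.map (W534.iter (Φ.Fr X) 1)).toLinearMap =
    ∏ l, (Polynomial.X - Polynomial.C (α l))

/-- The rank of the group of the cycles of codimension `(n + 1) dim X` on `X ^ (2 n + 2)` modulo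
numerical equivalence. -/
noncomputable def midRank (ops : CycleOps 𝒱) (X : 𝒱.Obj) (n : ℕ) : ℕ :=
  numRank ops (sq X n) ((n + 1) * X.dim)

/-- The Frobenius endomorphism of `Z` over the field with `q ^ s` elements is semisimple on the whole
cohomology of `Z`. -/
def FrobSemisimple {W : WeilCohomology.{u, v} ops} {p : ℕ} (Φ : FrobSystem W p) (Z : 𝒱.Obj)
    (s : ℕ) : Prop :=
  Module.End.IsSemisimple (frob Φ Z s)

/-- `z` is the order of the pole of the zeta function of `X ^ (2 n + 2)` at `(n + 1) dim X` over all
large finite fields. -/
def MidPole {W : WeilCohomology.{u, v} ops} {p : ℕ} (Φ : FrobSystem W p) (σ : W.K →+* ℂ)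
    (X : 𝒱.Obj) (n z : ℕ) : Prop :=
  PoleOrderIs Φ σ (sq X n) ((n + 1) * X.dim) z

/-- Homological and numerical equivalence coincide on all powers of `X`, the Frobenius endomorphisms
of all powers are semisimple, and the orders of the poles at the central points are at most `δ` times
the ranks. -/
structure StandardOnPowers {W : WeilCohomology.{u, v} ops} {p : ℕ} (Φ : FrobSystem W p)
    (σ : W.K →+* ℂ) (X : 𝒱.Obj) : Prop where
  hom_eq_num : ∀ n j, HomEqNumIn W (pw X n) j
  semisimple : ∀ n s, 0 < s → FrobSemisimple Φ (pw X n) s
  pole_le : ∃ δ : ℕ, ∀ n z, MidPole Φ σ X n z → z ≤ δ * midRank ops X n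

/-- **The growth of the groups of cycles decides the standard conjecture `D` and semisimplicity.** -/
theorem result (W : WeilCohomology.{u, v} ops) [IsAlgClosed W.K] (σ : W.K →+* ℂ) (p : ℕ)
    (hp : p.Prime) (Φ : FrobSystem W p) (hRH : ∀ Z : 𝒱.Obj, RiemannHyp Φ σ Z) (X : 𝒱.Obj)
    (D : X.Cycles) (hD : X.IsCyc 1 D) (hbig : Big ops X D) {ι : Type} [Fintype ι] (α : ι → W.K)
    (hα : AreEigenvalues Φ X α) :
    (∃ L : ℝ, Tendsto (fun n => (midRank ops X n : ℝ) / growth (Fintype.card ι) (quotRank α) n)
        atTop (𝓝 L) ∧ (L ≠ 0 ↔ StandardOnPowers Φ σ X)) ∧
      ∀ c : ℝ, 0 < c →
        (∃ᶠ n in atTop, c * growth (Fintype.card ι) (quotRank α) n ≤ midRank ops X n) →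
        StandardOnPowers Φ σ X := by
  have : Fact p.Prime := ⟨hp⟩
  obtain ⟨hcard, L, h1, h2, h3⟩ := growth_law (W := W) (Φ := Φ) hRH hD hbig α hα
  have hstd : L ≠ 0 → StandardOnPowers Φ σ X := fun h => by
    obtain ⟨h4, h5, h6⟩ := h2 h
    exact ⟨h4, h5, h6⟩
  refine ⟨⟨L, h1, hstd, fun h => ?_⟩, fun c hc hfr => hstd ?_⟩
  · obtain ⟨δ, hδ⟩ := h.pole_le
    exact h3 δ hδ
  · rintro rfl
    have h4 : ∀ᶠ n in atTop, (midRank ops X n : ℝ) / growth (Fintype.card ι) (quotRank α) n < c :=
      h1.eventually (gt_mem_nhds hc)
    refine hfr (h4.mono fun n hn => not_le.2 ?_)
    rwa [div_lt_iff₀ (growth_pos hcard _ n)] at hn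

end Pool.Agent.Results.MP_557161_ag.GrowthOfCycles
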