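import Pool.Agent.Run7.h946.LL.EC

/-!
# A numerical form of the refined conjecture of Birch and Swinnerton-Dyer over number fields which is
equivalent to it

Let `E` be an elliptic curve over a number field `K`, for example a curve over `ℚ` considered over `K`,
given by a Weierstrass equation with integral coefficients, `q_v` the norm of the prime `v`, `N_v` the
number of the affine points modulo `v`, `a_v = q_v - N_v`.  An asymptotic formula
`∏_{q_v ≤ X} (N_v + 1) / q_v ~ C (log X) ^ ρ`, the original form of the conjecture, implies the Riemann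
hypothesis for `L(E/K, s)` (Goldfeld for `K = ℚ`).  For a real number `τ` put

`W_τ(X) = ∑_v ( log ((N_v + 1) / q_v) w_1 + (w_1 - w_2) (a_v² - 2 q_v) / (2 q_v²) )`,
`w_k = 1 / Γ(1 + (1 + iτ) k log q_v / log X)`,

the sum over the primes `v` that do not divide `6Δ`; it converges absolutely for every `X > 1`, and each
weight `w_k` tends to `1` as `X → ∞`.  Let `F` be a meromorphic continuation to `Re s ≥ 1` of
`L(E/K, s)`, the Euler factors at the primes that divide `6Δ` removed; nothing is assumed on the zeros and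
poles of `F`.  It is proved that

`exp W_τ(X) = e^{-rκ} (1 + iτ)^{-r} c⁻¹ (log X)^r (1 + O(1 / log X))`, `κ = ∫_0^∞ (e^{-t} - 1/Γ(1+t)) dt/t`,

where `r = ord_{s=1} F` and `c` is the leading coefficient of `F` at `s = 1`, for every direction `τ` such
that `F` has no zeros and poles on the ray `{1 + (1 + iτ) x : x > 0}`; these are all `τ` in `[-B, B]` but
finitely many, for every `B`.  Conversely, if for one real number `τ` and one sequence `X_n → ∞` the
quotient `exp W_τ(X_n) / (log X_n)^ρ` tends to the number `e^{-ρκ} (1 + iτ)^{-ρ} B⁻¹`, then `r = ρ` and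
`c = B`; and the same with absolute values.  So the formula for the leading coefficient in the refined
conjecture for `E` over `K` (`ρ` the rank, `B` its right-hand side divided by the Euler factors removed)
is EQUIVALENT to an asymptotic formula for the numbers of points modulo the primes of `K`, along one
sequence.

The proof.  By Hankel's formula `W_τ(X)` is an integral of `exp (exp z)` times a Dirichlet series at
`(1 + iτ) z / log X` over the boundary of a half strip; the Dirichlet series differs from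
`-log F(1 + w)` by a function of size `O(|w|)` for `Re w > 0`, here the second order terms are used, and
by the theorem of Hasse the series converge; `log F` has a branch near the ray.
-/

set_option autoImplicit false

namespace Pool.Agent.Results.MP_f50388_nt.NumericalRefinedForm

open NumberField IsDedekindDomain Filter Topology Asymptotics Classical

section defs

variable {K : Type} [Field K] [NumberField K]

/-- The prime `v` does not divide `6Δ`. -/
def Good (W : WeierstrassCurve (𝓞 K)) (v : HeightOneSpectrum (𝓞 K)) : Prop := 6 * W.Δ ∉ v.asIdeal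

/-- The number `N_v` of the affine points of `W` over the residue field of `v`. -/
noncomputable def num (W : WeierstrassCurve (𝓞 K)) (v : HeightOneSpectrum (𝓞 K)) : ℕ :=
  Nat.card {P : (𝓞 K ⧸ v.asIdeal) × (𝓞 K ⧸ v.asIdeal) //
    P.2 ^ 2 + Ideal.Quotient.mk v.asIdeal W.a₁ * P.1 * P.2 + Ideal.Quotient.mk v.asIdeal W.a₃ * P.2 =
      P.1 ^ 3 + Ideal.Quotient.mk v.asIdeal W.a₂ * P.1 ^ 2 +
        Ideal.Quotient.mk v.asIdeal W.a₄ * P.1 + Ideal.Quotient.mk v.asIdeal W.a₆}

/-- `a_v = q_v - N_v`. -/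
noncomputable def a (W : WeierstrassCurve (𝓞 K)) (v : HeightOneSpectrum (𝓞 K)) : ℤ :=
  (Ideal.absNorm v.asIdeal : ℤ) - (num W v : ℤ)

/-- The Euler factor `(1 - a_v q_v^{-s} + q_v^{1-2s})⁻¹` at the primes that do not divide `6Δ`. -/
noncomputable def factor (W : WeierstrassCurve (𝓞 K)) (s : ℂ) (v : HeightOneSpectrum (𝓞 K)) : ℂ :=
  if Good W v then (1 - (a W v : ℂ) * (Ideal.absNorm v.asIdeal : ℂ) ^ (-s) +
    (Ideal.absNorm v.asIdeal : ℂ) ^ (1 - 2 * s))⁻¹ else 1

/-- `F` is meromorphic at all points with `Re s ≥ 1`, and it is the Euler product for `Re s > 3/2`. -/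
structure IsContinuation (W : WeierstrassCurve (𝓞 K)) (F : ℂ → ℂ) : Prop where
  mer : ∀ s : ℂ, 1 ≤ s.re → MeromorphicAt F s
  prod : ∀ s : ℂ, 3 / 2 < s.re → HasProd (factor W s) (F s)

/-- The weight `1 / Γ(1 + (1 + iτ) k log q_v / log X)`. -/
noncomputable def weight (k τ X : ℝ) (v : HeightOneSpectrum (𝓞 K)) : ℂ :=
  (Complex.Gamma (1 + (1 + τ * Complex.I) * (k * Real.log (Ideal.absNorm v.asIdeal) / Real.log X)))⁻¹

/-- The term of `W_τ(X)` at `v`. -/
noncomputable def term (W : WeierstrassCurve (𝓞 K)) (τ X : ℝ) (v : HeightOneSpectrum (𝓞 K)) : ℂ :=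
  if Good W v then
    (Real.log (((num W v : ℝ) + 1) / (Ideal.absNorm v.asIdeal : ℝ)) : ℂ) * weight 1 τ X v +
      (weight 1 τ X v - weight 2 τ X v) *
        (((a W v : ℂ) ^ 2 - 2 * (Ideal.absNorm v.asIdeal : ℂ)) /
          (2 * (Ideal.absNorm v.asIdeal : ℂ) ^ 2))
  else 0

/-- `W_τ(X)`. -/
noncomputable def sum (W : WeierstrassCurve (𝓞 K)) (τ X : ℝ) : ℂ := ∑' v, term W τ X v

end defs

/-- The point `1 + (1 + iτ) x`. -/
noncomputable def ray (τ x : ℝ) : ℂ := 1 + (1 + τ * Complex.I) * x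

/-- `F` has a zero or a pole on the ray `{1 + (1 + iτ) x : x > 0}`. -/
def Blocked (F : ℂ → ℂ) (τ : ℝ) : Prop :=
  ∃ x : ℝ, 0 < x ∧ meromorphicOrderAt F (ray τ x) ≠ 0

/-- The order of `F` at `s = 1` is `ρ`, and its leading coefficient is `B`: the limit of
`(s - 1)^{-ρ} F(s)` at `1` is the number `B ≠ 0`. -/
def Leading (F : ℂ → ℂ) (ρ : ℤ) (B : ℂ) : Prop :=
  B ≠ 0 ∧ Tendsto (fun s => (s - 1) ^ (-ρ) * F s) (𝓝[≠] 1) (𝓝 B)

/-- `κ = ∫_0^∞ (e^{-t} - 1/Γ(1+t)) dt/t`. -/
noncomputable def kappa : ℝ :=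
  ∫ t in Set.Ioi (0 : ℝ), (Real.exp (-t) - (Real.Gamma (1 + t))⁻¹) / t

/-- The constant `e^{-ρκ} (1 + iτ)^{-ρ} B⁻¹`. -/
noncomputable def const (τ : ℝ) (ρ : ℤ) (B : ℂ) : ℂ :=
  Complex.exp (-(ρ * kappa)) / ((1 + τ * Complex.I) ^ ρ * B)

section bridge

variable {K : Type} [Field K] [NumberField K] {W : WeierstrassCurve (𝓞 K)} {F : ℂ → ℂ}

open Run7.h946.LL

theorem one_eq : (((1 : ℕ) : ℂ) + 1) / 2 = 1 := by
  push_cast
  norm_num

theorem ray_eq (τ x : ℝ) : ray τ x = Pool.Agent.R409.RA.rp 1 τ x := by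
  unfold ray Pool.Agent.R409.RA.rp Pool.Agent.W524.RY.dir
  rw [one_eq]

theorem cont (hF : IsContinuation W F) : Pool.Agent.R409.RA.Cont 1 (EC.al W) F :=
  EC.IsCont.cont ⟨hF.mer, hF.prod⟩

theorem lead_eq (ρ : ℤ) (B : ℂ) : Leading F ρ B ↔ Lead F ((((1 : ℕ) : ℂ) + 1) / 2) ρ B := by
  rw [one_eq]
  rfl

theorem const_eq (τ : ℝ) (ρ : ℤ) (B : ℂ) : const τ ρ B = cst τ ρ B := rfl

theorem sum_eq (τ X : ℝ) :
    sum W τ X = cmean2 (Pool.Agent.R409.RA.ca 1 (EC.al W)) τ (Real.log X) := EC.sum_eq W τ X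

theorem not_blocked {τ : ℝ} :
    ¬ Blocked F τ ↔ ∀ x : ℝ, 0 < x → meromorphicOrderAt F (Pool.Agent.R409.RA.rp 1 τ x) = 0 := by
  unfold Blocked
  push Not
  simp only [ray_eq]

theorem free (hF : IsContinuation W F) {r : ℤ} {c : ℂ} (hc : Leading F r c) {τ : ℝ}
    (hτ : ¬ Blocked F τ) :
    (fun X : ℝ => Complex.exp (sum W τ X) / (Real.log X : ℂ) ^ r - const τ r c) =O[atTop]
      (fun X : ℝ => 1 / Real.log X) := by
  have h1 := free2 (cont hF) τ ((lead_eq r c).1 hc) (not_blocked.1 hτ)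
  have h2 := h1.comp_tendsto Real.tendsto_log_atTop
  refine h2.congr (fun X => ?_) (fun X => rfl)
  simp only [Function.comp]
  rw [sum_eq]
  rfl

theorem pinned (hF : IsContinuation W F) {τ : ℝ} {ρ : ℤ} {b : ℝ} (hb : 0 < b) {X : ℕ → ℝ}
    (hX : Tendsto X atTop atTop)
    (h : Tendsto (fun n => Real.exp (sum W τ (X n)).re / (Real.log (X n)) ^ ρ) atTop (𝓝 b)) :
    ¬ Blocked F τ ∧ ∃ B : ℂ, Leading F ρ B ∧ ‖const τ ρ B‖ = b := by
  simp only [sum_eq] at h
  obtain ⟨h1, B, h2, h3⟩ := pin (T := fun n => Real.log (X n)) (cont hF) hb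
    (Real.tendsto_log_atTop.comp hX) h
  exact ⟨not_blocked.2 h1, B, (lead_eq ρ B).2 h2, h3⟩

theorem norm_const {τ : ℝ} {ρ : ℤ} {B B' : ℂ} (hB : B ≠ 0) (hB' : B' ≠ 0) :
    ‖const τ ρ B‖ = ‖const τ ρ B'‖ ↔ ‖B‖ = ‖B'‖ := by
  have h1 : (0 : ℝ) < ‖(1 + τ * Complex.I) ^ ρ‖ :=
    norm_pos_iff.2 (zpow_ne_zero ρ (Pool.Agent.W524.RY.dir_ne τ))
  have h2 : 0 < ‖Complex.exp (-((ρ : ℂ) * (kappa : ℂ)))‖ := norm_pos_iff.2 (Complex.exp_ne_zero _)
  have h3 := norm_pos_iff.2 hB
  have h4 := norm_pos_iff.2 hB'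
  unfold const
  rw [norm_div, norm_div, norm_mul, norm_mul, div_eq_div_iff (by positivity) (by positivity)]
  constructor
  · intro h
    have h5 := mul_left_cancel₀ h2.ne' h
    exact (mul_left_cancel₀ h1.ne' h5).symm
  · intro h
    rw [h]

theorem exists_lead_aux (hF : IsContinuation W F) {r : ℤ} (hr : meromorphicOrderAt F 1 = r) :
    ∃ c : ℂ, Leading F r c := Run7.h946.LL.exists_lead (hF.mer 1 (by simp)) hr

theorem lim_of {g : ℝ → ℂ} {A : ℂ}
    (h : (fun X : ℝ => g X - A) =O[atTop] (fun X : ℝ => 1 / Real.log X)) :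
    Tendsto g atTop (𝓝 A) := by
  have h0 : Tendsto (fun X : ℝ => 1 / Real.log X) atTop (𝓝 0) := by
    have := tendsto_inv_atTop_zero.comp Real.tendsto_log_atTop
    refine this.congr fun X => ?_
    simp [Function.comp]
  have h1 := (h.trans_tendsto h0).add_const A
  simpa using h1

end bridge

/-- **A numerical form of the refined conjecture which is equivalent to it.** Let `W` be a Weierstrass
equation with integral coefficients of an elliptic curve `E` over a number field `K`, and `F` a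
meromorphic continuation to `Re s ≥ 1` of the `L`-function of `E` over `K`, the Euler factors at the primes
that divide `6Δ` removed. Then

* the series `W_τ(X)` converges absolutely for all `τ` and `X > 1`;
* only finitely many directions `τ` in every bounded interval are blocked;
* there are the order `r` and the leading coefficient `c` of `F` at `s = 1`, and for all free directions
  `exp W_τ(X) / (log X)^r = e^{-rκ} (1 + iτ)^{-r} c⁻¹ + O(1 / log X)`;
* for all integers `ρ` and complex numbers `B ≠ 0` the assertions `r = ρ` and `c = B`,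
  `exp W_τ(X_n) / (log X_n)^ρ → e^{-ρκ} (1 + iτ)^{-ρ} B⁻¹` for one `τ` and one sequence `X_n → ∞`, and the
  asymptotic formula with `ρ` and `B` in place of `r` and `c` for all free directions, are equivalent;
* for all integers `ρ` and real numbers `b > 0` the assertion `r = ρ` and `|c| = b` is equivalent to the
  limit formula for `|exp W_τ(X_n)| / (log X_n)^ρ` for one `τ` and one sequence `X_n → ∞`. -/
theorem result (K : Type) [Field K] [NumberField K] (W : WeierstrassCurve (𝓞 K)) (_hΔ : W.Δ ≠ 0)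
    (F : ℂ → ℂ) (hF : IsContinuation W F) :
    (∀ τ X : ℝ, 1 < X → Summable fun v => ‖term W τ X v‖) ∧
    (∀ B : ℝ, {τ : ℝ | |τ| ≤ B ∧ Blocked F τ}.Finite) ∧
    (∃ (r : ℤ) (c : ℂ), Leading F r c ∧ ∀ τ : ℝ, ¬ Blocked F τ →
      (fun X : ℝ => Complex.exp (sum W τ X) / (Real.log X : ℂ) ^ r - const τ r c) =O[atTop]
        (fun X : ℝ => 1 / Real.log X)) ∧
    (∀ (ρ : ℤ) (B : ℂ), B ≠ 0 → List.TFAE [
      Leading F ρ B,
      ∃ (τ : ℝ) (X : ℕ → ℝ), Tendsto X atTop atTop ∧
        Tendsto (fun n => Complex.exp (sum W τ (X n)) / (Real.log (X n) : ℂ) ^ ρ) atTop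
          (𝓝 (const τ ρ B)),
      ∀ τ : ℝ, ¬ Blocked F τ →
        (fun X : ℝ => Complex.exp (sum W τ X) / (Real.log X : ℂ) ^ ρ - const τ ρ B) =O[atTop]
          (fun X : ℝ => 1 / Real.log X)]) ∧
    ∀ (ρ : ℤ) (b : ℝ), 0 < b → ((∃ c : ℂ, Leading F ρ c ∧ ‖c‖ = b) ↔
      ∃ (τ : ℝ) (X : ℕ → ℝ), Tendsto X atTop atTop ∧
        Tendsto (fun n => Real.exp (sum W τ (X n)).re / (Real.log (X n)) ^ ρ) atTop
          (𝓝 ‖const τ ρ b‖)) := by
  have hC := cont hF
  obtain ⟨r, hr⟩ := WithTop.ne_top_iff_exists.1 (hC.ne_top (s := 1) (by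
    push_cast
    norm_num))
  obtain ⟨c, hc⟩ := exists_lead_aux hF hr.symm
  obtain ⟨τ₀, hτ₀⟩ := Run7.h946.LL.exists_free hC
  have hfree₀ : ¬ Blocked F τ₀ := not_blocked.2 hτ₀
  refine ⟨fun τ X hX => Run7.h946.LL.EC.term_summable W τ hX, fun B => ?_,
    ⟨r, c, hc, fun τ hτ => free hF hc hτ⟩, fun ρ B hB => ?_, fun ρ b hb => ?_⟩
  · have h1 := hC.blocked_finite B
    simp only [← ray_eq] at h1
    exact h1
  · tfae_have 1 → 3 := fun h1 τ hτ => free hF h1 hτ
    tfae_have 3 → 2 := fun h1 => ⟨τ₀, fun n => n, tendsto_natCast_atTop_atTop,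
      (lim_of (h1 τ₀ hfree₀)).comp tendsto_natCast_atTop_atTop⟩
    tfae_have 2 → 1 := by
      rintro ⟨τ, X, hX, h1⟩
      have hcc : const τ ρ B ≠ 0 := Run7.h946.LL.cst_ne τ ρ hB
      obtain ⟨hfree, B', hB', -⟩ := pinned hF (norm_pos_iff.2 hcc) hX (by
        refine h1.norm.congr' ?_
        filter_upwards [(Real.tendsto_log_atTop.comp hX).eventually_gt_atTop 0] with n hn
        exact Run7.h946.LL.norm_quot _ hn ρ)
      have h2 := (lim_of (free hF hB' hfree)).comp hX
      have h3 : const τ ρ B = const τ ρ B' := tendsto_nhds_unique h1 h2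
      rw [Run7.h946.LL.cst_inj hB hB'.1 h3]
      exact hB'
    tfae_finish
  · have hbc : (b : ℂ) ≠ 0 := by exact_mod_cast hb.ne'
    have hbn : ‖(b : ℂ)‖ = b := by rw [Complex.norm_real, Real.norm_of_nonneg hb.le]
    constructor
    · rintro ⟨B, hB, hBb⟩
      refine ⟨τ₀, fun n => n, tendsto_natCast_atTop_atTop, ?_⟩
      have h1 := ((lim_of (free hF hB hfree₀)).comp tendsto_natCast_atTop_atTop).norm
      have h2 : ‖const τ₀ ρ B‖ = ‖const τ₀ ρ b‖ := (norm_const hB.1 hbc).2 (by rw [hBb, hbn])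
      rw [← h2]
      refine h1.congr' ?_
      filter_upwards [(Real.tendsto_log_atTop.comp
        tendsto_natCast_atTop_atTop).eventually_gt_atTop 0] with n hn
      exact Run7.h946.LL.norm_quot _ hn ρ
    · rintro ⟨τ, X, hX, h1⟩
      have hcc : const τ ρ b ≠ 0 := Run7.h946.LL.cst_ne τ ρ hbc
      obtain ⟨-, B, hB, h2⟩ := pinned hF (norm_pos_iff.2 hcc) hX h1
      exact ⟨B, hB, by rw [(norm_const hB.1 hbc).1 h2, hbn]⟩

end Pool.Agent.Results.MP_f50388_nt.NumericalRefinedForm
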